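import Pool.Agent.H20.Morse.Defs

/-! MP_b587bd_al, module A: superlinear lower divergence implies Morse (helper29) -/

set_option autoImplicit false

namespace Pool.Agent.H29.Morse
open Pool.Agent.H20.Morse

variable {V : Type} {g : SimpleGraph V}

/-- `x` and `y` are joined by a walk of length `≤ n` inside `P`. -/
def Conn (g : SimpleGraph V) (P : V → Prop) (n : ℕ) (x y : V) : Prop :=
  ∃ w : g.Walk x y, w.length ≤ n ∧ ∀ v ∈ w.support, P v

lemma Conn.trans {P : V → Prop} {n m : ℕ} {x y z : V} (h : Conn g P n x y)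
    (h' : Conn g P m y z) : Conn g P (n + m) x z := by
  obtain ⟨w, hw, hP⟩ := h
  obtain ⟨w', hw', hP'⟩ := h'
  refine ⟨w.append w', ?_, ?_⟩
  · rw [SimpleGraph.Walk.length_append]; omega
  · intro v hv
    rw [SimpleGraph.Walk.mem_support_append_iff] at hv
    rcases hv with hv | hv
    · exact hP v hv
    · exact hP' v hv

lemma Conn.symm {P : V → Prop} {n : ℕ} {x y : V} (h : Conn g P n x y) : Conn g P n y x := by
  obtain ⟨w, hw, hP⟩ := h
  refine ⟨w.reverse, ?_, ?_⟩
  · rw [SimpleGraph.Walk.length_reverse]; exact hw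
  · intro v hv
    rw [SimpleGraph.Walk.support_reverse, List.mem_reverse] at hv
    exact hP v hv

lemma Conn.mono {P : V → Prop} {n m : ℕ} {x y : V} (h : Conn g P n x y) (hnm : n ≤ m) :
    Conn g P m x y := by
  obtain ⟨w, hw, hP⟩ := h
  exact ⟨w, hw.trans hnm, hP⟩

lemma Conn.refl {P : V → Prop} {x : V} (h : P x) : Conn g P 0 x x := by
  refine ⟨SimpleGraph.Walk.nil, by simp, ?_⟩
  intro v hv
  simp at hv
  subst hv
  exact h

/-- geodesic leg -/
lemma leg (hg : g.Connected) (P : V → Prop) (x y : V) (n : ℕ) (hn : g.dist x y ≤ n)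
    (hP : ∀ v, g.dist x v ≤ n → P v) : Conn g P n x y := by
  obtain ⟨w, hw⟩ := hg.exists_walk_length_eq_dist x y
  refine ⟨w, by omega, ?_⟩
  intro v hv
  apply hP
  classical
  have h1 : g.dist x v ≤ (w.takeUntil v hv).length := SimpleGraph.dist_le _
  have h2 : (w.takeUntil v hv).length ≤ w.length := SimpleGraph.Walk.length_takeUntil_le_length w hv
  omega

/-- natural version of quasi-geodesics -/
def QG (g : SimpleGraph V) (M L : ℕ) (q : ℕ → V) : Prop :=
  ∀ i j, i ≤ j → j ≤ L → g.dist (q i) (q j) ≤ M * (j - i) + M ∧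
    (j - i) ≤ M * g.dist (q i) (q j) + M * M

lemma QG.reverse {M L : ℕ} {q : ℕ → V} (h : QG g M L q) : QG g M L (fun i => q (L - i)) := by
  intro i j hij hj
  have h1 := h (L - j) (L - i) (by omega) (by omega)
  have e1 : (L - i) - (L - j) = j - i := by omega
  rw [e1] at h1
  show g.dist (q (L - i)) (q (L - j)) ≤ _ ∧ _ ≤ M * g.dist (q (L - i)) (q (L - j)) + M * M
  rw [SimpleGraph.dist_comm]
  exact h1

/-- connection along the quasi-geodesic -/
lemma along (hg : g.Connected) {M L : ℕ} {q : ℕ → V} (h : QG g M L q) (P : V → Prop)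
    (hP : ∀ i ≤ L, ∀ v, g.dist (q i) v ≤ 2 * M → P v) (j n : ℕ) (hj : j + n ≤ L) :
    Conn g P (2 * M * n) (q j) (q (j + n)) := by
  induction n with
  | zero =>
    refine Conn.refl (hP j (by omega) _ ?_)
    simp
  | succ n ih =>
    have h1 := ih (by omega)
    have h2 : Conn g P (2 * M) (q (j + n)) (q (j + (n + 1))) := by
      refine leg hg P _ _ _ ?_ (hP (j + n) (by omega))
      have := (h (j + n) (j + (n + 1)) (by omega) (by omega)).1
      have e : j + (n + 1) - (j + n) = 1 := by omega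
      rw [e] at this
      omega
    exact (h1.trans h2).mono (by ring_nf; omega)

lemma along' (hg : g.Connected) {M L : ℕ} {q : ℕ → V} (h : QG g M L q) (P : V → Prop)
    (hP : ∀ i ≤ L, ∀ v, g.dist (q i) v ≤ 2 * M → P v) (i j D : ℕ) (hi : i ≤ L) (hj : j ≤ L)
    (hD : g.dist (q i) (q j) ≤ D) :
    Conn g P (2 * M * (M * D + M * M)) (q i) (q j) := by
  rcases le_total i j with hij | hij
  · obtain ⟨n, rfl⟩ := Nat.exists_eq_add_of_le hij
    have h1 := (h i (i + n) hij hj).2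
    have e : i + n - i = n := by omega
    rw [e] at h1
    refine (along hg h P hP i n hj).mono (Nat.mul_le_mul_left _ (h1.trans ?_))
    have := Nat.mul_le_mul_left M hD
    omega
  · obtain ⟨n, rfl⟩ := Nat.exists_eq_add_of_le hij
    have h1 := (h j (j + n) hij hi).2
    have e : j + n - j = n := by omega
    rw [e, SimpleGraph.dist_comm] at h1
    refine (along hg h P hP j n hi).symm.mono (Nat.mul_le_mul_left _ (h1.trans ?_))
    have := Nat.mul_le_mul_left M hD
    omega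

lemma georay_dist {γ : ℕ → V} (hγ : GeoRay g γ) {m n : ℕ} (h : m ≤ n) :
    g.dist (γ m) (γ n) = n - m := by
  have h1 := hγ m n
  have h2 : (m : ℝ) ≤ n := by exact_mod_cast h
  rw [abs_of_nonpos (by linarith)] at h1
  have h3 : ((n - m : ℕ) : ℝ) = (n : ℝ) - m := Nat.cast_sub h
  have h4 : ((g.dist (γ m) (γ n) : ℕ) : ℝ) = ((n - m : ℕ) : ℝ) := by rw [h1, h3]; ring
  exact_mod_cast h4

/-- main estimate: the ray segment is close to the quasi-geodesic -/
lemma close (hg : g.Connected) {γ : ℕ → V} (hγ : GeoRay g γ) (hLD : LD g γ) (M : ℕ) :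
    ∃ R1 : ℕ, ∀ (a b L : ℕ) (q : ℕ → V), a ≤ b → QG g M L q → q 0 = γ a → q L = γ b →
      ∀ k, a ≤ k → k ≤ b → ∃ i ≤ L, g.dist (γ k) (q i) ≤ R1 := by
  obtain ⟨R0, hR0⟩ := hLD (2 + 12 * M * M + 2 * M * M * M)
  refine ⟨R0 + 8 * M + 1, ?_⟩
  intro a b L q hab hq h0 hL
  by_contra hcon
  push Not at hcon
  obtain ⟨k', hk'a, hk'b, hk'⟩ := hcon
  -- the distance to the quasi-geodesic
  classical
  have hne : ∀ k, ((Finset.range (L + 1)).image fun i => g.dist (γ k) (q i)).Nonempty := fun k =>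
    ⟨_, Finset.mem_image_of_mem _ (Finset.mem_range.2 (Nat.succ_pos L))⟩
  let ρ : ℕ → ℕ := fun k => ((Finset.range (L + 1)).image fun i => g.dist (γ k) (q i)).min' (hne k)
  have hρ1 : ∀ k i, i ≤ L → ρ k ≤ g.dist (γ k) (q i) := fun k i hi =>
    Finset.min'_le _ _ (Finset.mem_image_of_mem _ (Finset.mem_range.2 (by omega)))
  have hρ2 : ∀ k, ∃ i ≤ L, g.dist (γ k) (q i) = ρ k := by
    intro k
    have h1 := Finset.min'_mem _ (hne k)
    rw [Finset.mem_image] at h1
    obtain ⟨i, hi, h2⟩ := h1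
    exact ⟨i, by have := Finset.mem_range.1 hi; omega, h2⟩
  obtain ⟨k0, hk0mem, hk0max⟩ := Finset.exists_max_image (Finset.Icc a b) ρ
    ⟨a, Finset.mem_Icc.2 ⟨le_rfl, hab⟩⟩
  rw [Finset.mem_Icc] at hk0mem
  obtain ⟨hak0, hk0b⟩ := hk0mem
  set R := ρ k0 with hRdef
  have hRbig : R0 + 8 * M + 1 < R := by
    have h1 : R0 + 8 * M + 1 < ρ k' := by
      obtain ⟨i, hi, h2⟩ := hρ2 k'
      rw [← h2]; exact hk' i hi
    have h2 := hk0max k' (Finset.mem_Icc.2 ⟨hk'a, hk'b⟩)
    omega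
  have hfar : ∀ i ≤ L, R ≤ g.dist (γ k0) (q i) := fun i hi => hρ1 k0 i hi
  have hnear : ∀ k, a ≤ k → k ≤ b → ∃ i ≤ L, g.dist (γ k) (q i) ≤ R := by
    intro k h1 h2
    obtain ⟨i, hi, h3⟩ := hρ2 k
    exact ⟨i, hi, by rw [h3]; exact hk0max k (Finset.mem_Icc.2 ⟨h1, h2⟩)⟩
  have hka : R ≤ k0 - a := by
    have h1 := hfar 0 (Nat.zero_le _)
    rw [h0, SimpleGraph.dist_comm, georay_dist hγ hak0] at h1
    exact h1
  have hkb : R ≤ b - k0 := by
    have h1 := hfar L le_rfl
    rw [hL, georay_dist hγ hk0b] at h1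
    exact h1
  -- the allowed region
  let P : V → Prop := fun v => R < 4 * g.dist v (γ k0)
  have hPq : ∀ i ≤ L, ∀ v, g.dist (q i) v ≤ 2 * M → P v := by
    intro i hi v hv
    have h1 := hfar i hi
    have h2 := hg.dist_triangle (u := γ k0) (v := v) (w := q i)
    rw [SimpleGraph.dist_comm (u := γ k0) (v := v), SimpleGraph.dist_comm (u := v) (v := q i)] at h2
    show R < 4 * g.dist v (γ k0)
    omega
  -- left leg
  have hleft : ∃ i1 j1, a ≤ i1 ∧ i1 + R ≤ k0 ∧ k0 ≤ i1 + 2 * R ∧ j1 ≤ L ∧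
      g.dist (γ i1) (q j1) ≤ R ∧ Conn g P R (γ i1) (q j1) := by
    by_cases hc : k0 ≤ a + 2 * R
    · refine ⟨a, 0, le_rfl, by omega, hc, Nat.zero_le _, by rw [h0]; simp, ?_⟩
      rw [h0]
      have : Conn g P 0 (γ a) (γ a) := by
        refine Conn.refl ?_
        rw [← h0]
        exact hPq 0 (Nat.zero_le _) _ (by simp)
      exact this.mono (Nat.zero_le _)
    · obtain ⟨j1, hj1, h1⟩ := hnear (k0 - 2 * R) (by omega) (by omega)
      refine ⟨k0 - 2 * R, j1, by omega, by omega, by omega, hj1, h1, ?_⟩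
      refine leg hg P _ _ _ h1 ?_
      intro v hv
      have h2 := hg.dist_triangle (u := γ (k0 - 2 * R)) (v := v) (w := γ k0)
      rw [georay_dist hγ (by omega : k0 - 2 * R ≤ k0)] at h2
      show R < 4 * g.dist v (γ k0)
      omega
  have hright : ∃ i2 j2, i2 ≤ b ∧ k0 + R ≤ i2 ∧ i2 ≤ k0 + 2 * R ∧ j2 ≤ L ∧
      g.dist (γ i2) (q j2) ≤ R ∧ Conn g P R (γ i2) (q j2) := by
    by_cases hc : b ≤ k0 + 2 * R
    · refine ⟨b, L, le_rfl, by omega, hc, le_rfl, by rw [hL]; simp, ?_⟩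
      rw [hL]
      have : Conn g P 0 (γ b) (γ b) := by
        refine Conn.refl ?_
        rw [← hL]
        exact hPq L le_rfl _ (by simp)
      exact this.mono (Nat.zero_le _)
    · obtain ⟨j2, hj2, h1⟩ := hnear (k0 + 2 * R) (by omega) (by omega)
      refine ⟨k0 + 2 * R, j2, by omega, by omega, by omega, hj2, h1, ?_⟩
      refine leg hg P _ _ _ h1 ?_
      intro v hv
      have h2 := hg.dist_triangle (u := γ (k0 + 2 * R)) (v := v) (w := γ k0)
      rw [SimpleGraph.dist_comm (u := γ (k0 + 2 * R)) (v := γ k0),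
        georay_dist hγ (by omega : k0 ≤ k0 + 2 * R)] at h2
      show R < 4 * g.dist v (γ k0)
      omega
  obtain ⟨i1, j1, ha1, hi1, hi1', hj1, hd1, hc1⟩ := hleft
  obtain ⟨i2, j2, hb2, hi2, hi2', hj2, hd2, hc2⟩ := hright
  have hd : g.dist (q j1) (q j2) ≤ 6 * R := by
    have t1 := hg.dist_triangle (u := q j1) (v := γ i1) (w := q j2)
    have t2 := hg.dist_triangle (u := γ i1) (v := γ i2) (w := q j2)
    rw [SimpleGraph.dist_comm (u := q j1) (v := γ i1)] at t1
    rw [georay_dist hγ (by omega : i1 ≤ i2)] at t2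
    omega
  have hmid := along' hg hq P hPq j1 j2 (6 * R) hj1 hj2 hd
  obtain ⟨w, hw, hwP⟩ := (hc1.trans hmid).trans hc2.symm
  have hR1 : 1 ≤ R := by omega
  have hlen : w.length ≤ (2 + 12 * M * M + 2 * M * M * M) * R := by
    refine hw.trans ?_
    have h1 : 2 * M * M * M ≤ 2 * M * M * M * R := Nat.le_mul_of_pos_right _ hR1
    calc R + 2 * M * (M * (6 * R) + M * M) + R
        = (2 + 12 * M * M) * R + 2 * M * M * M := by ring
      _ ≤ (2 + 12 * M * M) * R + 2 * M * M * M * R := by omega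
      _ = _ := by ring
  obtain ⟨t, ht, htR⟩ := hR0 R (by omega) i1 k0 i2 hi1 hi2 w.length (fun t => w.getVert t) hlen
    (by simp) (by simp) (by
      intro t ht
      right
      exact w.adj_getVert_succ ht)
  have := hwP (w.getVert t) (w.getVert_mem_support t)
  have h5 : R < 4 * g.dist (w.getVert t) (γ k0) := this
  omega

/-- every point of the quasi-geodesic is close to the ray, `a ≤ b` -/
lemma close2 (hg : g.Connected) {γ : ℕ → V} (hγ : GeoRay g γ) (hLD : LD g γ) (M : ℕ) :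
    ∃ R2 : ℕ, ∀ (a b L : ℕ) (q : ℕ → V), a ≤ b → QG g M L q → q 0 = γ a → q L = γ b →
      ∀ i ≤ L, ∃ t, g.dist (q i) (γ t) ≤ R2 := by
  obtain ⟨R1, hR1⟩ := close hg hγ hLD M
  refine ⟨M * (M * (2 * R1 + 1) + M * M) + M + R1, ?_⟩
  intro a b L q hab hq h0 hL i hi
  classical
  have hj : ∀ k, ∃ j ≤ L, (a ≤ k → k ≤ b → g.dist (γ k) (q j) ≤ R1) ∧ (k = a → j = 0) := by
    intro k
    by_cases hka : k = a
    · subst hka
      exact ⟨0, Nat.zero_le _, fun _ _ => by rw [h0]; simp, fun _ => rfl⟩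
    · by_cases hk : a ≤ k ∧ k ≤ b
      · obtain ⟨j, hj, h1⟩ := hR1 a b L q hab hq h0 hL k hk.1 hk.2
        exact ⟨j, hj, fun _ _ => h1, fun h => absurd h hka⟩
      · exact ⟨0, Nat.zero_le _, fun h1 h2 => absurd ⟨h1, h2⟩ hk, fun h => absurd h hka⟩
  choose j hjL hjd hja using hj
  by_cases hiL : i = L
  · subst hiL
    exact ⟨b, by rw [hL]; simp⟩
  -- the largest k with j k ≤ i
  let S := (Finset.Icc a b).filter fun k => j k ≤ i
  have hSne : S.Nonempty := ⟨a, by
    simp only [S, Finset.mem_filter, Finset.mem_Icc]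
    exact ⟨⟨le_rfl, hab⟩, by rw [hja a rfl]; exact Nat.zero_le _⟩⟩
  obtain ⟨k, hkS, hkmax⟩ := Finset.exists_max_image S id hSne
  simp only [S, Finset.mem_filter, Finset.mem_Icc] at hkS
  obtain ⟨⟨hak, hkb⟩, hjk⟩ := hkS
  have hdk := hjd k hak hkb
  -- next index
  have hnext : ∃ j', i ≤ j' ∧ j' ≤ L ∧ g.dist (q (j k)) (q j') ≤ 2 * R1 + 1 := by
    by_cases hkb' : k = b
    · refine ⟨L, hi, le_rfl, ?_⟩
      rw [hL, SimpleGraph.dist_comm, ← hkb']
      omega
    · have hk1 : k + 1 ≤ b := by omega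
      refine ⟨j (k + 1), ?_, hjL _, ?_⟩
      · by_contra hlt
        push Not at hlt
        have hmem : k + 1 ∈ S := by
          simp only [S, Finset.mem_filter, Finset.mem_Icc]
          exact ⟨⟨by omega, hk1⟩, by omega⟩
        have := hkmax (k + 1) hmem
        simp at this
      · have hd1 := hjd (k + 1) (by omega) hk1
        have t1 := hg.dist_triangle (u := q (j k)) (v := γ k) (w := q (j (k + 1)))
        have t2 := hg.dist_triangle (u := γ k) (v := γ (k + 1)) (w := q (j (k + 1)))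
        rw [SimpleGraph.dist_comm (u := q (j k)) (v := γ k)] at t1
        rw [georay_dist hγ (by omega : k ≤ k + 1)] at t2
        omega
  obtain ⟨j', hij', hj'L, hdj'⟩ := hnext
  have h1 := (hq (j k) j' (by omega) hj'L).2
  have h2 := (hq (j k) i hjk hi).1
  have h3 : i - j k ≤ M * (2 * R1 + 1) + M * M := by
    have := Nat.mul_le_mul_left M hdj'
    omega
  have h4 : g.dist (q (j k)) (q i) ≤ M * (M * (2 * R1 + 1) + M * M) + M :=
    h2.trans (Nat.add_le_add_right (Nat.mul_le_mul_left M h3) M)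
  refine ⟨k, ?_⟩
  have t1 := hg.dist_triangle (u := q i) (v := q (j k)) (w := γ k)
  rw [SimpleGraph.dist_comm (u := q i) (v := q (j k)),
    SimpleGraph.dist_comm (u := q (j k)) (v := γ k)] at t1
  omega

theorem targetA : TargetA := by
  intro V g hg γ hγ hLD
  choose R2 hR2 using close2 hg hγ hLD
  refine ⟨fun K C => (R2 (⌈K⌉₊ + ⌈C⌉₊) : ℝ), ?_⟩
  intro K C hK hC L q hq ⟨a, ha⟩ ⟨b, hb⟩ i hi
  set M := ⌈K⌉₊ + ⌈C⌉₊ with hM
  have hKM : K ≤ M := by
    rw [hM]; push_cast
    have := Nat.le_ceil K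
    have h2 : (0 : ℝ) ≤ (⌈C⌉₊ : ℝ) := Nat.cast_nonneg _
    linarith
  have hCM : C ≤ M := by
    rw [hM]; push_cast
    have := Nat.le_ceil C
    have h2 : (0 : ℝ) ≤ (⌈K⌉₊ : ℝ) := Nat.cast_nonneg _
    linarith
  have hQG : QG g M L q := by
    intro i j hij hj
    obtain ⟨h1, h2⟩ := hq i j (hij.trans hj) hj
    have hijR : (i : ℝ) ≤ j := by exact_mod_cast hij
    have hsub : ((j - i : ℕ) : ℝ) = (j : ℝ) - i := Nat.cast_sub hij
    have habs : |(i : ℝ) - j| = (j : ℝ) - i := by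
      rw [abs_of_nonpos (by linarith)]; ring
    rw [habs] at h1 h2
    have hji : (0 : ℝ) ≤ (j : ℝ) - i := by linarith
    have hd0 : (0 : ℝ) ≤ ((g.dist (q i) (q j) : ℕ) : ℝ) := Nat.cast_nonneg _
    have hM0 : (0 : ℝ) ≤ M := Nat.cast_nonneg _
    constructor
    · have h3 : ((g.dist (q i) (q j) : ℕ) : ℝ) ≤ ((M * (j - i) + M : ℕ) : ℝ) := by
        push_cast
        rw [hsub]
        nlinarith
      exact_mod_cast h3
    · have h3 : ((j - i : ℕ) : ℝ) ≤ ((M * g.dist (q i) (q j) + M * M : ℕ) : ℝ) := by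
        push_cast
        rw [hsub]
        have h4 : ((j : ℝ) - i) / K ≤ ((g.dist (q i) (q j) : ℕ) : ℝ) + C := by linarith
        rw [div_le_iff₀ (by linarith)] at h4
        nlinarith
      exact_mod_cast h3
  rcases le_total a b with hab | hab
  · obtain ⟨t, ht⟩ := hR2 M a b L q hab hQG ha hb i hi
    exact ⟨t, (Nat.cast_le (α := ℝ)).2 ht⟩
  · obtain ⟨t, ht⟩ := hR2 M b a L (fun i => q (L - i)) hab hQG.reverse (by simpa using hb)
      (by simpa using ha) (L - i) (by omega)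
    refine ⟨t, ?_⟩
    have e : L - (L - i) = i := by omega
    simp only [e] at ht
    exact (Nat.cast_le (α := ℝ)).2 ht

end Pool.Agent.H29.Morse
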